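import Pool.Agent.Helper92.SGE.Goals

/-!
Packet SGE-BLK (MP_a41896_nt): the block Roth lemma in the situation of part 1.
-/

set_option autoImplicit false

open MvPolynomial

namespace Pool.Agent.Helper87.SGE

open WeierstrassCurve Height Height.AdmissibleAbsValues
open Pool.Agent.Helper29.BL Pool.Agent.Helper92.Ru Pool.Agent.Helper42.SG Pool.Agent.Helper92.SGE

lemma dd_half (n : ℕ) (e : ℕ → ℕ) (h : ℕ) : dd n e (2 * (h / 2)) = dd n e h := by
  unfold dd
  have h2 : 2 * (h / 2) / 2 = h / 2 := by omega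
  rw [h2]
  by_cases hh : h < 2 * n
  · rw [if_pos hh, if_pos (by omega)]
  · rw [if_neg hh, if_neg (by omega)]

lemma dd_lt {n : ℕ} (e : ℕ → ℕ) {j : ℕ} (hj : j < n) :
    (dd n e (2 * j) : ℝ) = (4 ^ n * (3 * n)) * 4 ^ e j := by
  unfold dd
  rw [if_pos (by omega), show 2 * j / 2 = j by omega]
  push_cast
  ring

lemma dd_eq (n : ℕ) (e : ℕ → ℕ) : (dd n e (2 * n) : ℝ) = (4 ^ n * (3 * n)) * n := by
  unfold dd
  rw [if_neg (by omega)]
  push_cast
  ring

theorem blk : BLK := by
  intro n hn hBL K _ _ ε C σ hε hC hσ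
  obtain ⟨D, Kc, ω, hKc, hω, hω1, hmain⟩ := hBL K σ hσ
  set A : ℝ := 4 ^ n * (3 * n) with hAdef
  have hnR : (1 : ℝ) ≤ n := by exact_mod_cast hn
  have h4n : (1 : ℝ) ≤ 4 ^ n := one_le_pow₀ (by norm_num)
  have hA1 : 1 ≤ A := by
    rw [hAdef]
    nlinarith
  have hA0 : 0 < A := by linarith
  set B0 : ℝ := C + A * n with hB0def
  have hB0 : 1 ≤ B0 := by
    rw [hB0def]
    nlinarith
  set C2 : ℝ := B0 * (5 / 4 * n) with hC2def
  have hC2 : 0 < C2 := by
    rw [hC2def]
    have : 0 < 5 / 4 * (n : ℝ) := by linarith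
    exact mul_pos (by linarith) this
  set CI : ℝ := Kc * C2 * (5 / 4) / A with hCI
  have hCI0 : 0 ≤ CI := by
    rw [hCI]
    positivity
  set K0 : ℝ := max (max 1 (25 / 16 / ω)) (max (5 / 4 * n / ω) (Kc * C2 / (A * (4 / 5) * ε) + 1))
    with hK0
  have hK1 : 1 ≤ K0 := (le_max_left _ _).trans (le_max_left _ _)
  have hK2 : 25 / 16 / ω ≤ K0 := (le_max_right _ _).trans (le_max_left _ _)
  have hK3 : 5 / 4 * n / ω ≤ K0 := (le_max_left _ _).trans (le_max_right _ _)
  have hK4 : Kc * C2 / (A * (4 / 5) * ε) + 1 ≤ K0 := (le_max_right _ _).trans (le_max_right _ _)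
  have hK0p : 0 < K0 := by linarith
  refine ⟨D, CI, K0, hCI0, hK1, ?_⟩
  intro e y ξ Q hey hy0 hyy hht hQ hdeg hPH hInd
  -- the sequence `y`
  have hy0p : 0 < y 0 := by linarith
  have hmono : ∀ j ≤ n, y 0 ≤ y j := by
    intro j
    induction j with
    | zero => intro _; exact le_rfl
    | succ j ih =>
      intro hj
      have h1 := ih (by omega)
      have h2 := hyy j (by omega)
      nlinarith
  have hypos : ∀ j ≤ n, 0 < y j := fun j hj => lt_of_lt_of_le hy0p (hmono j hj)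
  have hgap : ∀ j j', j < j' → j' ≤ n → K0 * y j ≤ y j' := by
    intro j j' hjj
    induction j' with
    | zero => omega
    | succ j' ih =>
      intro hj'
      rcases Nat.lt_succ_iff_lt_or_eq.1 hjj with h | h
      · have h1 := ih h (by omega)
        have h2 := hyy j' (by omega)
        have h3 := hypos j' (by omega)
        nlinarith
      · subst h
        exact hyy j (by omega)
  set t : ℝ := y n with ht
  have htp : 0 < t := hypos n le_rfl
  have htK : K0 ≤ t := hy0.trans (hmono n le_rfl)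
  -- the sum of the `q_j`
  have hq1 : ∀ j < n, (4 : ℝ) ^ e j ≤ (sq n e : ℝ) := by
    intro j hj
    unfold Pool.Agent.Helper42.SG.sq
    push_cast
    exact Finset.single_le_sum (f := fun j => (4 : ℝ) ^ e j) (fun i _ => by positivity)
      (Finset.mem_range.2 hj)
  have hq0 : ∀ j, (1 : ℝ) ≤ 4 ^ e j := fun j => one_le_pow₀ (by norm_num)
  have hsq1 : (1 : ℝ) ≤ (sq n e : ℝ) := (hq0 0).trans (hq1 0 (by omega))
  have hsq : (sq n e : ℝ) ≤ 5 / 4 * n * (t / y 0) := by
    unfold Pool.Agent.Helper42.SG.sq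
    push_cast
    calc ∑ j ∈ Finset.range n, (4 : ℝ) ^ e j ≤ ∑ _j ∈ Finset.range n, 5 / 4 * (t / y 0) := by
          refine Finset.sum_le_sum fun j hj => ?_
          have hjn := Finset.mem_range.1 hj
          have h1 := (hey j hjn).2
          have h2 := hmono j hjn.le
          have h3 : (4 : ℝ) ^ e j * y 0 ≤ 5 / 4 * t := by
            have h4 : (4 : ℝ) ^ e j * y 0 ≤ 4 ^ e j * y j :=
              mul_le_mul_of_nonneg_left h2 (by positivity)
            linarith
          rw [← mul_div_assoc, le_div_iff₀ hy0p]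
          exact h3
      _ = 5 / 4 * n * (t / y 0) := by
          rw [Finset.sum_const, Finset.card_range, nsmul_eq_mul]
          ring
  set Hh : ℝ := B0 * (sq n e : ℝ) with hHh
  have hHt : Hh ≤ C2 * (t / y 0) := by
    rw [hHh, hC2def]
    calc B0 * (sq n e : ℝ) ≤ B0 * (5 / 4 * n * (t / y 0)) :=
          mul_le_mul_of_nonneg_left hsq (by linarith)
      _ = B0 * (5 / 4 * n) * (t / y 0) := by ring
  have hHt2 : Hh ≤ C2 * (t / K0) := by
    refine hHt.trans (mul_le_mul_of_nonneg_left ?_ hC2.le)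
    exact div_le_div_of_nonneg_left htp.le hK0p hy0
  -- `d_j y_j`
  have hdy : ∀ j ≤ n, A * (4 / 5) * t ≤ (dd n e (2 * j) : ℝ) * y j := by
    intro j hj
    rcases hj.lt_or_eq with h | h
    · rw [dd_lt e h, ← hAdef]
      have h1 := (hey j h).1
      calc A * (4 / 5) * t = A * (4 / 5 * t) := by ring
        _ ≤ A * (4 ^ e j * y j) := mul_le_mul_of_nonneg_left h1 hA0.le
        _ = A * 4 ^ e j * y j := by ring
    · subst h
      rw [dd_eq, ← hAdef, ← ht]
      have h1 : A * (4 / 5) ≤ A * j := mul_le_mul_of_nonneg_left (by linarith) hA0.le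
      exact mul_le_mul_of_nonneg_right h1 htp.le
  have hd1 : ∀ j ≤ n, 1 ≤ dd n e (2 * j) := by
    intro j hj
    have h1 : (1 : ℝ) ≤ (dd n e (2 * j) : ℝ) := by
      rcases hj.lt_or_eq with h | h
      · rw [dd_lt e h, ← hAdef]
        have := hq0 j
        nlinarith
      · subst h
        rw [dd_eq, ← hAdef]
        nlinarith
    exact_mod_cast h1
  have hdH : ∀ j ≤ n, (dd n e (2 * j) : ℝ) ≤ Hh := by
    intro j hj
    have hAn : A ≤ A * n := by nlinarith
    have hAB : A * n ≤ B0 := by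
      rw [hB0def]
      linarith
    rcases hj.lt_or_eq with h | h
    · rw [dd_lt e h, ← hAdef, hHh]
      exact mul_le_mul (hAn.trans hAB) (hq1 j h) (by positivity) (by linarith)
    · rw [h, dd_eq, ← hAdef, hHh]
      calc A * n ≤ B0 := hAB
        _ = B0 * 1 := (mul_one _).symm
        _ ≤ B0 * (sq n e : ℝ) := mul_le_mul_of_nonneg_left hsq1 (by linarith)
  have hlow := hmain (fun j => dd n e (2 * j)) ξ Hh 1 Q ?_ ?_ ?_ ?_
  · obtain ⟨j, hj, f, hf1, hf2, hf3, hf4⟩ := hlow
    have hjn : j ≤ n := by omega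
    refine ⟨j, hjn, f, hf1, hf2, hf3, ?_⟩
    have hdp : (0 : ℝ) < (dd n e (2 * j) : ℝ) := by
      have := hd1 j hjn
      exact_mod_cast this
    have h1 : (dd n e (2 * j) : ℝ) * Real.log (PH f) ≤ Kc * (C2 * (t / y 0)) :=
      hf4.trans (mul_le_mul_of_nonneg_left hHt (by linarith))
    have h2 : Kc * (C2 * (t / y 0)) ≤ (dd n e (2 * j) : ℝ) * (CI * (y j / y 0)) := by
      have h3 := hdy j hjn
      have h4 : t ≤ (dd n e (2 * j) : ℝ) * y j * (5 / 4) / A := by
        rw [le_div_iff₀ hA0]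
        linarith
      have h5 : 0 ≤ Kc * C2 / y 0 := by positivity
      calc Kc * (C2 * (t / y 0)) = Kc * C2 / y 0 * t := by ring
        _ ≤ Kc * C2 / y 0 * ((dd n e (2 * j) : ℝ) * y j * (5 / 4) / A) :=
          mul_le_mul_of_nonneg_left h4 h5
        _ = (dd n e (2 * j) : ℝ) * (CI * (y j / y 0)) := by
          rw [hCI]
          ring
    exact le_of_mul_le_mul_left (h1.trans h2) hdp
  · intro j hj
    exact ⟨hd1 j (by omega), hdH j (by omega)⟩
  · intro j j' hjj hj'
    show ((dd n e (2 * j') : ℕ) : ℝ) ≤ ω * ((dd n e (2 * j) : ℕ) : ℝ)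
    have hjn : j < n := by omega
    have hyj := hypos j hjn.le
    rw [dd_lt e hjn, ← hAdef]
    have hlo := (hey j hjn).1
    have hg := hgap j j' hjj (by omega)
    rcases Nat.lt_succ_iff_lt_or_eq.1 hj' with h | h
    · rw [dd_lt e h, ← hAdef]
      have hup := (hey j' h).2
      have h1 : (4 : ℝ) ^ e j' * (K0 * y j) ≤ 25 / 16 * (4 ^ e j * y j) := by
        have h2 : (4 : ℝ) ^ e j' * (K0 * y j) ≤ 4 ^ e j' * y j' :=
          mul_le_mul_of_nonneg_left hg (by positivity)
        linarith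
      have h3 : (4 : ℝ) ^ e j' * K0 ≤ 25 / 16 * 4 ^ e j := by
        have h4 : (4 : ℝ) ^ e j' * K0 * y j ≤ 25 / 16 * 4 ^ e j * y j := by linarith
        exact le_of_mul_le_mul_right h4 hyj
      have h5 : 25 / 16 ≤ ω * K0 := by
        rw [div_le_iff₀ hω] at hK2
        linarith
      have h6 : (4 : ℝ) ^ e j' ≤ ω * 4 ^ e j := by
        have h7 : (4 : ℝ) ^ e j' * K0 ≤ ω * 4 ^ e j * K0 := by
          calc (4 : ℝ) ^ e j' * K0 ≤ 25 / 16 * 4 ^ e j := h3
            _ ≤ ω * K0 * 4 ^ e j := mul_le_mul_of_nonneg_right h5 (by positivity)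
            _ = ω * 4 ^ e j * K0 := by ring
        exact le_of_mul_le_mul_right h7 hK0p
      calc A * 4 ^ e j' ≤ A * (ω * 4 ^ e j) := mul_le_mul_of_nonneg_left h6 hA0.le
        _ = ω * (A * 4 ^ e j) := by ring
    · rw [h, dd_eq, ← hAdef]
      rw [h] at hg
      have h1 : 4 / 5 * K0 ≤ (4 : ℝ) ^ e j := by
        have h2 : 4 / 5 * K0 * y j ≤ 4 ^ e j * y j := by
          calc 4 / 5 * K0 * y j = 4 / 5 * (K0 * y j) := by ring
            _ ≤ 4 / 5 * y n := by linarith
            _ ≤ _ := hlo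
        exact le_of_mul_le_mul_right h2 hyj
      have h3 : 5 / 4 * (n : ℝ) ≤ ω * K0 := by
        rw [div_le_iff₀ hω] at hK3
        linarith
      have h4 : (n : ℝ) ≤ ω * 4 ^ e j := by
        have h5 : ω * (4 / 5 * K0) ≤ ω * 4 ^ e j := mul_le_mul_of_nonneg_left h1 hω.le
        linarith
      calc A * n ≤ A * (ω * 4 ^ e j) := mul_le_mul_of_nonneg_left h4 hA0.le
        _ = ω * (A * 4 ^ e j) := by ring
  · intro h hh
    show Kc * Hh < ((dd n e (2 * (h / 2)) : ℕ) : ℝ) * logHeight₁ (ξ h)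
    have hjn : h / 2 ≤ n := by omega
    have h1 : ε * y (h / 2) ≤ logHeight₁ (ξ h) := by
      rcases Nat.mod_two_eq_zero_or_one h with hm | hm
      · have := (hht (h / 2) hjn).1
        rwa [show 2 * (h / 2) = h by omega] at this
      · have := (hht (h / 2) hjn).2
        rwa [show 2 * (h / 2) + 1 = h by omega] at this
    have h2 := hdy (h / 2) hjn
    have hdp : (0 : ℝ) ≤ (dd n e (2 * (h / 2)) : ℝ) := Nat.cast_nonneg _
    have h3 : A * (4 / 5) * ε * t ≤ (dd n e (2 * (h / 2)) : ℝ) * logHeight₁ (ξ h) := by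
      calc A * (4 / 5) * ε * t = ε * (A * (4 / 5) * t) := by ring
        _ ≤ ε * ((dd n e (2 * (h / 2)) : ℝ) * y (h / 2)) := mul_le_mul_of_nonneg_left h2 hε.le
        _ = (dd n e (2 * (h / 2)) : ℝ) * (ε * y (h / 2)) := by ring
        _ ≤ _ := mul_le_mul_of_nonneg_left h1 hdp
    refine lt_of_lt_of_le ?_ h3
    have hAe : 0 < A * (4 / 5) * ε := by positivity
    have h4 : Kc * C2 < A * (4 / 5) * ε * K0 := by
      have h5 : Kc * C2 / (A * (4 / 5) * ε) < K0 := by linarith
      rw [div_lt_iff₀ hAe] at h5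
      linarith
    calc Kc * Hh ≤ Kc * (C2 * (t / K0)) := mul_le_mul_of_nonneg_left hHt2 (by linarith)
      _ = Kc * C2 * (t / K0) := by ring
      _ < A * (4 / 5) * ε * K0 * (t / K0) := mul_lt_mul_of_pos_right h4 (div_pos htp hK0p)
      _ = A * (4 / 5) * ε * t := by
        field_simp
  · refine ⟨hQ, one_pos, ?_, ?_, ?_⟩
    · intro h
      show (Q.degreeOf h : ℝ) ≤ ((dd n e (2 * (h.val / 2)) : ℕ) : ℝ) * 1
      rw [dd_half, mul_one]
      exact_mod_cast hdeg h
    · rw [mul_one, hHh]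
      refine hPH.trans ?_
      refine mul_le_mul_of_nonneg_right ?_ (by linarith)
      rw [hB0def]
      have : 0 ≤ A * n := by positivity
      linarith
    · rw [mul_one]
      have h1 : (fun h : Fin (2 * (n + 1)) => dd n e (2 * (h.val / 2)))
          = (fun h : Fin (2 * n + 2) => dd n e h.val) := by
        funext h
        exact dd_half n e h.val
      show IndGe (fun h : Fin (2 * (n + 1)) => dd n e (2 * (h.val / 2)))
        (fun h : Fin (2 * (n + 1)) => ξ h.val) σ Q
      rw [h1]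
      exact hInd

end Pool.Agent.Helper87.SGE
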